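import Pool.Agent.Lib.MP_8d6f76_pr.XFinal

open MeasureTheory Filter Topology Pool.Agent.Lib.MP_8d6f76_pr

namespace Pool.Agent.Results.MP_8d6f76_pr.ClosedForm

/-- Multi-point Fisher-Hartwig asymptotics for the Green field of the spherical ensemble in two
steps: the exponential moment equals a closed form up to an exponentially small relative error,
uniformly over separated poles, and the closed form is asymptotic to the conjectured main term
(the product over pairs of poles is common to both). -/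
theorem result (k : ℕ) (γ : Fin k → ℂ) (hγ : ∀ i, -2 < (γ i).re) :
    (∀ δ : ℝ, 0 < δ → ∃ c : ℝ, 0 < c ∧ ∀ᶠ n : ℕ in atTop, ∀ p : Fin k → OnePoint ℂ,
      (∀ i j, i ≠ j → δ ≤ chord (p i) (p j)) →
      ‖(∫ ω, Complex.exp (∑ i, γ i * (linStat (green (p i)) ω.1 ω.2 : ℝ))
          ∂((ginibre n).prod (ginibre n))) /
        ((Complex.Gamma (n + 1) / Complex.Gamma (n + 1 + (∑ i, γ i) / 2)) ^ n *
          (barnesG (n + 1 + (∑ i, γ i) / 2) / barnesG (n + 1)) ^ 2 *
          (∏ i, barnesG (n + 1 + ((∑ j, γ j) - γ i) / 2) /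
            (barnesG (1 + γ i / 2) * barnesG (n + 1 + (∑ j, γ j) / 2))) /
          ∏ i, ∏ j ∈ Finset.Ioi i, ((chord (p i) (p j) : ℝ) : ℂ) ^ (γ i * γ j / 2)) - 1‖ ≤
        Real.exp (-c * n)) ∧
    Tendsto (fun n : ℕ =>
      ((Complex.Gamma (n + 1) / Complex.Gamma (n + 1 + (∑ i, γ i) / 2)) ^ n *
          (barnesG (n + 1 + (∑ i, γ i) / 2) / barnesG (n + 1)) ^ 2 *
          ∏ i, barnesG (n + 1 + ((∑ j, γ j) - γ i) / 2) /
            (barnesG (1 + γ i / 2) * barnesG (n + 1 + (∑ j, γ j) / 2))) /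
        (Complex.exp (-(∑ i, γ i) / 2 * n - (∑ i, γ i) / 4 - (∑ i, γ i) ^ 2 / 8) *
          (2 * Real.pi : ℂ) ^ ((∑ i, γ i) / 4) * (n : ℂ) ^ ((∑ i, γ i ^ 2) / 8) /
          ∏ i, barnesG (1 + γ i / 2))) atTop (𝓝 1) :=
  ⟨closedForm k γ hγ, closedForm_asymp k γ hγ⟩

end Pool.Agent.Results.MP_8d6f76_pr.ClosedForm
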